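import Mathlib

namespace Pool.Agent.Results.MP_e51b07_al.No

open Finset
open scoped Classical

/-- `S` meets every left coset `gH` in exactly one element. -/
def IsLT {G : Type} [Group G] (H : Subgroup G) (S : Set G) : Prop :=
  ∀ g : G, ∃! s, s ∈ S ∧ g⁻¹ * s ∈ H

/-- `S` meets every right coset `Kg` in exactly one element. -/
def IsRT {G : Type} [Group G] (K : Subgroup G) (S : Set G) : Prop :=
  ∀ g : G, ∃! s, s ∈ S ∧ s * g⁻¹ ∈ K

/-- the common transversal probability `|DT_G(H,K)| / |H|^(G:H)`. -/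
noncomputable def P {G : Type} [Group G] (H K : Subgroup G) : ℚ :=
  (Nat.card {S : Set G // IsLT H S ∧ IsRT K S} : ℚ) / (Nat.card H : ℚ) ^ H.index

/-- block diagonal matrix with blocks of size `t i` and entries `1 / t i`. -/
noncomputable def T {s : ℕ} (t : Fin s → ℕ) :
    Matrix (Σ i, Fin (t i)) (Σ i, Fin (t i)) ℚ :=
  fun a b => if a.1 = b.1 then 1 / (t a.1 : ℚ) else 0

noncomputable def g (k : ℕ) : ℚ := (k.factorial : ℚ) / (k : ℚ) ^ k

lemma key {α β D : Type} [Fintype α] [Fintype β] [Fintype D] (a : α → D) (b : β → D) (t : D → ℕ)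
    (ha : ∀ d, #{q | a q = d} = t d) (hb : ∀ d, #{q | b q = d} = t d) :
    ∑ e : α ≃ β, ∏ q, (if b (e q) = a q then 1 / (t (a q) : ℚ) else 0) = ∏ d, g (t d) := by
  have hf : ∀ d, Fintype.card {q // a q = d} = Fintype.card {q // b q = d} := by
    intro d; rw [Fintype.card_subtype, Fintype.card_subtype, ha, hb]
  let τ : α ≃ β := Equiv.ofFiberEquiv (f := a) (g := b) fun d => Fintype.equivOfCardEq (hf d)
  have hτ : ∀ q, b (τ q) = a q := fun q => Equiv.ofFiberEquiv_map _ q
  have h1 : ∀ e : α ≃ β, ∏ q, (if b (e q) = a q then 1 / (t (a q) : ℚ) else 0)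
      = if (∀ q, b (e q) = a q) then ∏ q, 1 / (t (a q) : ℚ) else 0 := by
    intro e
    split_ifs with h
    · exact prod_congr rfl fun q _ => if_pos (h q)
    · push Not at h
      obtain ⟨q, hq⟩ := h
      exact prod_eq_zero (mem_univ q) (if_neg hq)
  simp_rw [h1]
  rw [← sum_filter, sum_const, nsmul_eq_mul]
  have h2 : #{e : α ≃ β | ∀ q, b (e q) = a q} = ∏ d, (t d).factorial := by
    have := DomMulAct.stabilizer_card (f := a)
    rw [Fintype.card_subtype] at this
    have h3 : #{e : α ≃ β | ∀ q, b (e q) = a q} = #{e : Equiv.Perm α | a ∘ e = a} := by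
      symm
      apply card_bij (fun e _ => Equiv.trans e τ)
      · intro e he
        simp only [mem_filter, mem_univ, true_and] at he ⊢
        intro q
        rw [Equiv.trans_apply, hτ]; exact congrFun he q
      · intro e _ e' _ h
        ext q; exact τ.injective (congrArg (fun f : α ≃ β => f q) h)
      · intro e he
        simp only [mem_filter, mem_univ, true_and] at he
        refine ⟨e.trans τ.symm, ?_, by ext q; simp⟩
        simp only [mem_filter, mem_univ, true_and]
        funext q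
        have := hτ ((e.trans τ.symm) q)
        simp only [Function.comp_apply]
        rw [← this, ← he q]; simp
    rw [h3]
    convert this using 2 with d
    rw [Fintype.card_subtype]; congr 1; convert (ha d).symm
  have h4 : ∏ q, 1 / (t (a q) : ℚ) = ∏ d, (1 / (t d : ℚ)) ^ (t d) := by
    rw [← prod_fiberwise' univ a (fun d => 1 / (t d : ℚ))]
    refine prod_congr rfl fun d _ => ?_
    rw [prod_const, ha]
  rw [h2, h4]
  push_cast
  rw [← prod_mul_distrib]
  refine prod_congr rfl fun d _ => ?_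
  simp [g, div_eq_mul_inv]

lemma per_T : (T ![1, 3, 5]).permanent = 16 / 1875 := by
  have h := key (α := Σ i, Fin (![1, 3, 5] i)) (β := Σ i, Fin (![1, 3, 5] i)) (D := Fin 3) Sigma.fst Sigma.fst ![1, 3, 5]
    (by intro d; fin_cases d <;> simp only [] <;> decide)
    (by intro d; fin_cases d <;> simp only [] <;> decide)
  have h2 : ∏ d : Fin 3, g (![1, 3, 5] d) = 16 / 1875 := by
    simp [Fin.prod_univ_succ, g, Nat.factorial]; norm_num
  rw [← h2, ← h]
  unfold Matrix.permanent T
  refine sum_congr (by ext; simp) fun e _ => prod_congr (by congr) fun q _ => ?_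
  split_ifs with h1
  · rw [h1]
  · rfl

lemma g_pos {k : ℕ} (hk : 1 ≤ k) : 0 < g k := by unfold g; positivity

lemma g_succ {k : ℕ} (hk : 1 ≤ k) : g (k + 1) ≤ g k := by
  unfold g
  have hk' : (0 : ℚ) < k := by exact_mod_cast hk
  rw [Nat.factorial_succ, pow_succ]
  push_cast
  rw [mul_comm ((k : ℚ) + 1), mul_div_mul_right _ _ (by positivity)]
  gcongr; linarith

lemma g_le {k m : ℕ} (hm : 1 ≤ m) (hk : m ≤ k) : g k ≤ g m := by
  induction k, hk using Nat.le_induction with
  | base => exact le_rfl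
  | succ n hn ih => exact (g_succ (by omega)).trans ih

lemma g_le_one {k : ℕ} (hk : 1 ≤ k) : g k ≤ 1 := by
  have := g_le le_rfl hk
  simpa [g] using this

lemma nt {D : Type} [Fintype D] (t : D → ℕ) (ht : ∀ d, 1 ≤ t d) (h : ∏ d, g (t d) = 16 / 1875) :
    (∀ d, t d = 1 ∨ t d = 3 ∨ t d = 5) ∧ #{d | t d = 3} = 1 ∧ #{d | t d = 5} = 1 := by
  have h6 : ∀ d, t d ≤ 6 := by
    intro d
    by_contra hc
    have h7 : g (t d) ≤ g 7 := g_le (by norm_num) (by omega)
    have : ∏ d, g (t d) ≤ g (t d) := by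
      rw [← mul_prod_erase univ (fun d => g (t d)) (mem_univ d)]
      refine mul_le_of_le_one_right (g_pos (ht d)).le ?_
      exact prod_le_one (fun i _ => (g_pos (ht i)).le) fun i _ => g_le_one (ht i)
    have h8 : g 7 < 16 / 1875 := by simp [g, Nat.factorial]; norm_num
    linarith
  have hm : ∀ d ∈ (univ : Finset D), t d ∈ Icc 1 6 := fun d _ => mem_Icc.2 ⟨ht d, h6 d⟩
  rw [← prod_fiberwise_of_maps_to' hm g] at h
  simp only [prod_const] at h
  have hI : Icc 1 6 = ({1, 2, 3, 4, 5, 6} : Finset ℕ) := by decide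
  rw [hI] at h
  rw [prod_insert (by decide), prod_insert (by decide), prod_insert (by decide),
    prod_insert (by decide), prod_insert (by decide), prod_singleton] at h
  have e1 : g 1 = 1 := by simp [g]
  have e2 : g 2 = 1 / 2 := by simp [g, Nat.factorial]; norm_num
  have e3 : g 3 = 2 / 9 := by simp [g, Nat.factorial]; norm_num
  have e4 : g 4 = 3 / 32 := by simp [g, Nat.factorial]; norm_num
  have e5 : g 5 = 24 / 625 := by simp [g, Nat.factorial]; norm_num
  have e6 : g 6 = 5 / 324 := by simp [g, Nat.factorial]; norm_num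
  rw [e1, e2, e3, e4, e5, e6, one_pow, one_mul] at h
  have main : ∀ a b c d e : ℕ, (1 / 2 : ℚ) ^ a * ((2 / 9) ^ b * ((3 / 32) ^ c * ((24 / 625) ^ d *
      (5 / 324) ^ e))) = 16 / 1875 → a = 0 ∧ b = 1 ∧ c = 0 ∧ d = 1 ∧ e = 0 := by
    intro a b c d e h
    have bd : ∀ (x y : ℚ) (n m : ℕ), 0 < x → x ≤ 1 → 0 ≤ y → y ≤ 1 → x ^ n * y = 16 / 1875 →
        x ^ m < 16 / 1875 → n < m := by
      intro x y n m hx hx1 hy hy1 he hm
      by_contra hc
      have : x ^ n ≤ x ^ m := pow_le_pow_of_le_one hx.le hx1 (by omega)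
      have h2 : x ^ n * y ≤ x ^ n := mul_le_of_le_one_right (by positivity) hy1
      linarith
    have pa : (1 / 2 : ℚ) ^ a ≤ 1 := pow_le_one₀ (by norm_num) (by norm_num)
    have pb : (2 / 9 : ℚ) ^ b ≤ 1 := pow_le_one₀ (by norm_num) (by norm_num)
    have pc : (3 / 32 : ℚ) ^ c ≤ 1 := pow_le_one₀ (by norm_num) (by norm_num)
    have pd : (24 / 625 : ℚ) ^ d ≤ 1 := pow_le_one₀ (by norm_num) (by norm_num)
    have pe : (5 / 324 : ℚ) ^ e ≤ 1 := pow_le_one₀ (by norm_num) (by norm_num)
    have m4 : ∀ p q r s : ℚ, 0 ≤ p → p ≤ 1 → 0 ≤ q → q ≤ 1 → 0 ≤ r → r ≤ 1 → 0 ≤ s → s ≤ 1 →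
        p * (q * (r * s)) ≤ 1 := by
      intro p q r s _ _ _ _ _ _ _ _
      apply mul_le_one₀ (by assumption) (by positivity)
      apply mul_le_one₀ (by assumption) (by positivity)
      exact mul_le_one₀ (by assumption) (by assumption) (by assumption)
    have ha : a < 7 := bd _ _ a 7 (by norm_num) (by norm_num) (by positivity)
      (m4 _ _ _ _ (by positivity) pb (by positivity) pc (by positivity) pd (by positivity) pe) h
      (by norm_num)
    have hb : b < 4 := bd (2 / 9) _ b 4 (by norm_num) (by norm_num) (by positivity)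
      (m4 _ _ _ _ (by positivity) pa (by positivity) pc (by positivity) pd (by positivity) pe)
      (by rw [← h]; ring) (by norm_num)
    have hc : c < 3 := bd (3 / 32) _ c 3 (by norm_num) (by norm_num) (by positivity)
      (m4 _ _ _ _ (by positivity) pa (by positivity) pb (by positivity) pd (by positivity) pe)
      (by rw [← h]; ring) (by norm_num)
    have hd : d < 2 := bd (24 / 625) _ d 2 (by norm_num) (by norm_num) (by positivity)
      (m4 _ _ _ _ (by positivity) pa (by positivity) pb (by positivity) pc (by positivity) pe)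
      (by rw [← h]; ring) (by norm_num)
    have he : e < 2 := bd (5 / 324) _ e 2 (by norm_num) (by norm_num) (by positivity)
      (m4 _ _ _ _ (by positivity) pa (by positivity) pb (by positivity) pc (by positivity) pd)
      (by rw [← h]; ring) (by norm_num)
    interval_cases a <;> interval_cases b <;> interval_cases c <;> interval_cases d <;>
      interval_cases e <;> first | (norm_num at h; done) | simp
  obtain ⟨h2, h3, h4, h5, h6'⟩ := main _ _ _ _ _ h
  refine ⟨fun d => ?_, h3, h5⟩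
  rw [card_eq_zero, filter_eq_empty_iff] at h2 h4 h6'
  have := h2 (mem_univ d); have := h4 (mem_univ d); have := h6' (mem_univ d)
  have := ht d; have := h6 d
  omega

section grp
variable {G : Type} [Group G] [Fintype G] (H K : Subgroup G)

def rr (x : G) : G ⧸ H := ((x⁻¹ : G) : G ⧸ H)

omit [Fintype G] in
lemma rr_eq {x y : G} : rr H x = rr H y ↔ x * y⁻¹ ∈ H := by
  unfold rr; rw [QuotientGroup.eq, inv_inv]

noncomputable def cc (q : G ⧸ H) (ρ : G ⧸ K) : ℕ := #{x : G | (x : G ⧸ H) = q ∧ rr K x = ρ}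

lemma count : Nat.card {S : Set G // IsLT H S ∧ IsRT K S} =
    ∑ e : (G ⧸ H) ≃ (G ⧸ K), ∏ q, cc H K q (e q) := by
  have h1 : Nat.card {f : G ⧸ H → G // (∀ q, ((f q : G) : G ⧸ H) = q) ∧
      Function.Bijective (fun q => rr K (f q))} = Nat.card {S : Set G // IsLT H S ∧ IsRT K S} := by
    refine Nat.card_congr (Equiv.ofBijective (fun f => ⟨Set.range f.1, ?_, ?_⟩) ⟨?_, ?_⟩)
    · intro x
      refine ⟨f.1 x, ⟨⟨_, rfl⟩, QuotientGroup.eq.1 (f.2.1 x).symm⟩, ?_⟩
      rintro _ ⟨⟨q, rfl⟩, hq⟩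
      rw [QuotientGroup.eq.2 hq, f.2.1]
    · intro x
      obtain ⟨q, hq⟩ := f.2.2.2 (rr K x)
      refine ⟨f.1 q, ⟨⟨_, rfl⟩, (rr_eq K).1 hq⟩, ?_⟩
      rintro _ ⟨⟨q', rfl⟩, hq'⟩
      have : q' = q := f.2.2.1 (((rr_eq K).2 hq').trans hq.symm)
      rw [this]
    · intro f f' h
      have h' : Set.range f.1 = Set.range f'.1 := congrArg Subtype.val h
      apply Subtype.ext; funext q
      obtain ⟨q', hq'⟩ : f.1 q ∈ Set.range f'.1 := h' ▸ ⟨q, rfl⟩
      have : q' = q := by rw [← f'.2.1 q', hq', f.2.1]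
      rw [← hq', this]
    · rintro ⟨S, hL, hR⟩
      choose f hf hu using fun q : G ⧸ H => hL q.out
      have hl : ∀ q, ((f q : G) : G ⧸ H) = q := by
        intro q
        rw [← QuotientGroup.eq.2 (hf q).2, QuotientGroup.out_eq']
      refine ⟨⟨f, hl, ?_, ?_⟩, Subtype.ext ?_⟩
      · intro q q' h
        have h2 := (rr_eq K).1 h
        have := (hR (f q')).unique ⟨(hf q).1, h2⟩ ⟨(hf q').1, by simp⟩
        rw [← hl q, this, hl]
      · intro ρ
        obtain ⟨s, ⟨hs, hs2⟩, -⟩ := hR ρ.out⁻¹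
        have : s = f (s : G ⧸ H) := hu _ s ⟨hs, by rw [← QuotientGroup.eq, QuotientGroup.out_eq']⟩
        refine ⟨(s : G ⧸ H), ?_⟩
        show rr K (f _) = ρ
        rw [← this, (rr_eq K).2 hs2]; simp [rr]
      · ext s
        constructor
        · rintro ⟨q, rfl⟩; exact (hf q).1
        · intro hs
          refine ⟨(s : G ⧸ H), (hu _ s ⟨hs, ?_⟩).symm⟩
          rw [← QuotientGroup.eq, QuotientGroup.out_eq']
  rw [← h1, Nat.card_eq_fintype_card, Fintype.card_subtype]
  have h2 : ∀ e : (G ⧸ H) ≃ (G ⧸ K), ∏ q, cc H K q (e q) =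
      ∑ f : G ⧸ H → G, if (∀ q, ((f q : G) : G ⧸ H) = q ∧ rr K (f q) = e q) then 1 else 0 := by
    intro e
    unfold cc
    rw [← Fintype.card_piFinset, ← card_filter]
    congr 1; ext f; simp
  simp_rw [h2]
  rw [sum_comm, card_filter]
  refine sum_congr rfl fun f _ => ?_
  rw [← card_filter]
  split_ifs with h
  · symm
    rw [card_eq_one]
    refine ⟨Equiv.ofBijective _ h.2, ?_⟩
    ext e
    simp only [mem_filter, mem_univ, true_and, mem_singleton]
    constructor
    · intro he; ext q; exact (he q).2.symm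
    · rintro rfl q; exact ⟨h.1 q, rfl⟩
  · symm
    rw [card_eq_zero, filter_eq_empty_iff]
    intro e _ he
    apply h
    refine ⟨fun q => (he q).1, ?_⟩
    have : (fun q => rr K (f q)) = e := funext fun q => (he q).2
    rw [this]; exact e.bijective

noncomputable def aa (q : G ⧸ H) : DoubleCoset.Quotient (K : Set G) H := DoubleCoset.mk K H q.out
noncomputable def bb (q : G ⧸ K) : DoubleCoset.Quotient (K : Set G) H :=
  DoubleCoset.mk K H q.out⁻¹

omit [Fintype G] in
lemma aa_mk (x : G) : aa H K x = DoubleCoset.mk K H x := by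
  obtain ⟨h, hh⟩ := QuotientGroup.mk_out_eq_mul H x
  unfold aa; rw [hh]; symm
  exact (DoubleCoset.eq _ _ _ _).2 ⟨1, K.one_mem, h, h.2, by simp⟩

omit [Fintype G] in
lemma bb_rr (x : G) : bb H K (rr K x) = DoubleCoset.mk K H x := by
  obtain ⟨h, hh⟩ := QuotientGroup.mk_out_eq_mul K x⁻¹
  unfold bb rr; rw [hh]; symm
  exact (DoubleCoset.eq _ _ _ _).2 ⟨h⁻¹, K.inv_mem h.2, 1, H.one_mem, by simp⟩

omit [Fintype G] in
lemma rr_surj (ρ : G ⧸ H) : ∃ x, rr H x = ρ := ⟨ρ.out⁻¹, by simp [rr]⟩

/-- `|H ∩ x⁻¹ H x|` -/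
noncomputable def c (x : G) : ℕ := #{a : G | a ∈ H ∧ x * a * x⁻¹ ∈ K}

lemma c_conj (x n : G) (hn : ∀ a, a ∈ H ↔ n * a * n⁻¹ ∈ H) : c H K (x * n) = c H K x := by
  unfold c
  apply card_bij (fun a _ => n * a * n⁻¹)
  · intro a ha
    simp only [mem_filter, mem_univ, true_and] at ha ⊢
    exact ⟨(hn a).1 ha.1, by simpa [mul_assoc] using ha.2⟩
  · intro a _ b _ h; simpa using h
  · intro a ha
    simp only [mem_filter, mem_univ, true_and] at ha
    refine ⟨n⁻¹ * a * n, ?_, by group⟩
    simp only [mem_filter, mem_univ, true_and]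
    refine ⟨(hn _).2 (by simpa [mul_assoc] using ha.1), by simpa [mul_assoc] using ha.2⟩

lemma c_inv (x : G) : c H K x⁻¹ = c K H x := by
  unfold c
  apply card_bij (fun a _ => x⁻¹ * a * x)
  · intro a ha
    simp only [mem_filter, mem_univ, true_and] at ha ⊢
    exact ⟨by simpa using ha.2, by simpa [mul_assoc] using ha.1⟩
  · intro a _ b _ h; simpa using h
  · intro a ha
    simp only [mem_filter, mem_univ, true_and] at ha
    refine ⟨x * a * x⁻¹, ?_, by group⟩
    simp only [mem_filter, mem_univ, true_and]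
    refine ⟨ha.2, by simpa [mul_assoc] using ha.1⟩

omit [Fintype G] in
lemma conj_H {k : G} (hk : k ∈ H) (a : G) : a ∈ H ↔ k * a * k⁻¹ ∈ H := by
  rw [H.mul_mem_cancel_right (H.inv_mem hk), H.mul_mem_cancel_left hk]

lemma c_dc {x y : G} (h : DoubleCoset.mk K H x = DoubleCoset.mk K H y) : c H K x = c H K y := by
  obtain ⟨a, ha, k, hk, rfl⟩ := (DoubleCoset.eq _ _ _ _).1 h
  rw [c_conj H K _ _ (conj_H H hk), ← c_inv K H (a * x), mul_inv_rev,
    c_conj K H _ _ (conj_H K (K.inv_mem ha)), c_inv]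

lemma cc_eq (x y : G) : cc H K x (rr K y) =
    if DoubleCoset.mk K H x = DoubleCoset.mk K H y then c H K x else 0 := by
  split_ifs with h
  · obtain ⟨a, ha, k, hk, rfl⟩ := (DoubleCoset.eq _ _ _ _).1 h
    rw [← c_conj H K x k (conj_H H hk)]
    unfold cc c
    symm
    apply card_bij (fun b _ => x * k * b)
    · intro b hb
      simp only [mem_filter, mem_univ, true_and] at hb ⊢
      refine ⟨(QuotientGroup.eq.2 ?_).symm, (rr_eq K).2 ?_⟩
      · simpa [mul_assoc] using H.mul_mem hk hb.1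
      · simpa [mul_assoc] using K.mul_mem hb.2 (K.inv_mem ha)
    · intro a _ b _ h; simpa using h
    · intro z hz
      simp only [mem_filter, mem_univ, true_and] at hz
      refine ⟨(x * k)⁻¹ * z, ?_, by group⟩
      simp only [mem_filter, mem_univ, true_and]
      constructor
      · simpa [mul_assoc] using H.mul_mem (H.inv_mem hk) (QuotientGroup.eq.1 hz.1.symm)
      · simpa [mul_assoc] using K.mul_mem ((rr_eq K).1 hz.2) ha
  · unfold cc
    rw [card_eq_zero, filter_eq_empty_iff]
    rintro z _ ⟨h1, h2⟩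
    apply h
    rw [← aa_mk, ← h1, aa_mk, ← bb_rr, h2, bb_rr]

lemma fib_l (x : G) : #{y : G | (y : G ⧸ H) = x} = #{y : G | y ∈ H} := by
  symm
  apply card_bij (fun b _ => x * b)
  · intro b hb
    simp only [mem_filter, mem_univ, true_and] at hb ⊢
    exact (QuotientGroup.eq.2 (by simpa using hb)).symm
  · intro a _ b _ h; simpa using h
  · intro z hz
    simp only [mem_filter, mem_univ, true_and] at hz
    exact ⟨x⁻¹ * z, by simpa using QuotientGroup.eq.1 hz.symm, by group⟩

lemma fib_r (x : G) : #{y : G | rr H y = rr H x} = #{y : G | y ∈ H} := by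
  symm
  apply card_bij (fun b _ => b * x)
  · intro b hb
    simp only [mem_filter, mem_univ, true_and] at hb ⊢
    exact (rr_eq H).2 (by simpa using hb)
  · intro a _ b _ h; simpa using h
  · intro z hz
    simp only [mem_filter, mem_univ, true_and] at hz
    exact ⟨z * x⁻¹, by simpa using (rr_eq H).1 hz, by group⟩

noncomputable def tt (d : DoubleCoset.Quotient (K : Set G) H) : ℕ := #{q | aa H K q = d}

lemma tt_c (x : G) : tt H K (DoubleCoset.mk K H x) * c H K x = #{y : G | y ∈ K} := by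
  rw [← fib_r K x, card_eq_sum_card_fiberwise (f := fun y : G => (y : G ⧸ H)) (t := univ)
    (fun _ _ => by simp)]
  unfold tt
  rw [card_filter, sum_mul]
  refine sum_congr rfl fun q _ => ?_
  obtain ⟨z, rfl⟩ := QuotientGroup.mk_surjective q
  have := cc_eq H K z x
  unfold cc at this
  rw [filter_filter, aa_mk]
  simp_rw [and_comm (a := rr K _ = _)]
  rw [this]
  split_ifs with h
  · rw [one_mul, c_dc H K h]
  · simp

lemma tt_c' (x : G) : #{q | bb H K q = DoubleCoset.mk K H x} * c H K x = #{y : G | y ∈ H} := by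
  rw [← fib_l H x, card_eq_sum_card_fiberwise (f := fun y : G => rr K y) (t := univ)
    (fun _ _ => by simp)]
  rw [card_filter, sum_mul]
  refine sum_congr rfl fun q _ => ?_
  obtain ⟨z, rfl⟩ := rr_surj K q
  have := cc_eq H K x z
  unfold cc at this
  rw [filter_filter, bb_rr, this]
  by_cases h : DoubleCoset.mk K H x = DoubleCoset.mk K H z
  · rw [if_pos h, if_pos h.symm, one_mul]
  · rw [if_neg h, if_neg (Ne.symm h), zero_mul]

lemma hpos : 0 < #{y : G | y ∈ H} := card_pos.2 ⟨1, by simp⟩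

lemma c_pos (x : G) : 0 < c H K x := card_pos.2 ⟨1, by simp⟩

lemma tt_pos (d) : 1 ≤ tt H K d := by
  obtain ⟨x, rfl⟩ := Quotient.exists_rep d
  have := tt_c H K x
  have h := hpos K
  rw [← this] at h
  exact Nat.pos_of_mul_pos_right h |> fun _ => Nat.pos_of_ne_zero (by
    intro h0
    have h0' : tt H K (DoubleCoset.mk K H x) = 0 := h0
    rw [h0'] at h; simp at h)

noncomputable instance : Fintype (DoubleCoset.Quotient (K : Set G) H) :=
  Fintype.ofSurjective (DoubleCoset.mk K H) Quotient.mk''_surjective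

lemma P_eq (hHK : #{y : G | y ∈ H} = #{y : G | y ∈ K}) : P H K = ∏ d, g (tt H K d) := by
  have hb : ∀ d, #{q | bb H K q = d} = tt H K d := by
    intro d
    obtain ⟨x, rfl⟩ := Quotient.exists_rep d
    exact Nat.eq_of_mul_eq_mul_right (c_pos H K x) ((tt_c' H K x).trans (hHK.trans (tt_c H K x).symm))
  rw [← key (aa H K) (bb H K) (tt H K) (fun _ => rfl) hb]
  unfold P
  rw [count]
  have hH : Nat.card H = #{y : G | y ∈ H} := by
    rw [Nat.card_eq_fintype_card, Fintype.card_subtype]
  have hi : H.index = #(univ : Finset (G ⧸ H)) := by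
    rw [Subgroup.index, Nat.card_eq_fintype_card, card_univ]
  rw [hH, hi]
  push_cast
  rw [sum_div]
  refine sum_congr (by ext; simp) fun e _ => ?_
  rw [← prod_const, ← prod_div_distrib]
  refine prod_congr rfl fun q _ => ?_
  obtain ⟨x, rfl⟩ := QuotientGroup.mk_surjective q
  obtain ⟨y, hy⟩ := rr_surj K (e x)
  rw [← hy, cc_eq, bb_rr, aa_mk]
  by_cases h : DoubleCoset.mk K H x = DoubleCoset.mk K H y
  · rw [if_pos h, if_pos h.symm, hHK, ← tt_c H K x]
    have := c_pos H K x
    have := tt_pos H K (DoubleCoset.mk K H x)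
    push_cast
    field_simp
  · rw [if_neg h, if_neg (Ne.symm h)]; simp

lemma inv_card (p : G → Prop) [DecidablePred p] (hp : ∀ x k, k ∈ K → (p (x * k) ↔ p x)) :
    #{x | p x} = #{q : G ⧸ K | p q.out} * #{y : G | y ∈ K} := by
  rw [card_eq_sum_card_fiberwise (f := fun y : G => (y : G ⧸ K)) (t := univ)
    (fun _ _ => by simp), card_filter, sum_mul]
  refine sum_congr rfl fun q _ => ?_
  rw [filter_filter]
  have h0 : ∀ y : G, (y : G ⧸ K) = q → (p y ↔ p q.out) := by
    rintro y rfl
    obtain ⟨h, hh⟩ := QuotientGroup.mk_out_eq_mul K y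
    rw [hh, hp _ _ h.2]
  split_ifs with h
  · rw [one_mul, ← fib_l K q.out, QuotientGroup.out_eq']
    congr 1; ext y
    simp only [mem_filter, mem_univ, true_and]
    exact ⟨fun h => h.2, fun h' => ⟨(h0 y h').2 h, h'⟩⟩
  · rw [zero_mul, card_eq_zero, filter_eq_empty_iff]
    rintro y _ ⟨h1, h2⟩
    exact h ((h0 y h2).1 h1)

noncomputable def τ (x : G) : ℕ := tt H K (DoubleCoset.mk K H x)

lemma τ_of_c {x y : G} (h : c H K x = c H K y) : τ H K x = τ H K y := by
  apply Nat.eq_of_mul_eq_mul_right (c_pos H K x)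
  unfold τ
  rw [tt_c, h, tt_c]

lemma τ_one : τ H H 1 = 1 := by
  apply Nat.eq_of_mul_eq_mul_right (c_pos H H 1)
  unfold τ
  rw [tt_c, one_mul]; unfold c; simp

lemma τ_norm {n : G} (h : τ H H n = 1) : ∀ a ∈ H, n * a * n⁻¹ ∈ H := by
  intro a ha
  have h1 := tt_c H H n
  have h2 : tt H H (DoubleCoset.mk H H n) = 1 := h
  rw [h2, one_mul] at h1
  unfold c at h1
  have := eq_of_subset_of_card_le (s := {a : G | a ∈ H ∧ n * a * n⁻¹ ∈ H})
    (t := {y : G | y ∈ H}) (by intro y; simp only [mem_filter, mem_univ, true_and]; exact And.left)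
    h1.ge
  have h3 : a ∈ ({a : G | a ∈ H ∧ n * a * n⁻¹ ∈ H} : Finset G) := by rw [this]; simpa using ha
  simp only [mem_filter, mem_univ, true_and] at h3
  exact h3.2

lemma main_grp : P H H ≠ 16 / 1875 := by
  intro hP
  rw [P_eq H H rfl] at hP
  obtain ⟨h135, h3, h5⟩ := nt (tt H H) (tt_pos H H) hP
  have hq : ∀ k, #{d | tt H H d = k} = 1 → #{q : G ⧸ H | τ H H q.out = k} = k := by
    intro k hk
    obtain ⟨d, hd⟩ := card_eq_one.1 hk
    have hd' : ∀ d', tt H H d' = k ↔ d' = d := by
      intro d'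
      rw [← mem_singleton (a := d) (b := d'), ← hd]; simp
    have : tt H H d = k := (hd' d).2 rfl
    refine Eq.trans ?_ this
    unfold tt
    congr 1; ext q
    simp only [mem_filter, mem_univ, true_and]
    exact hd' (aa H H q)
  have hH : ∀ k x n, n ∈ H → (τ H H (x * n) = k ↔ τ H H x = k) := by
    intro k x n hn
    rw [τ_of_c H H (c_conj H H x n (conj_H H hn))]
  have hN : ∀ k x n, n ∈ Subgroup.normalizer (H : Set G) → (τ H H (x * n) = k ↔ τ H H x = k) := by
    intro k x n hn
    rw [τ_of_c H H (c_conj H H x n (Subgroup.mem_normalizer_iff.1 hn))]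
  have e3 := inv_card H (fun x => τ H H x = 3) (hH 3)
  have e5 := inv_card H (fun x => τ H H x = 5) (hH 5)
  have e1 := inv_card H (fun x => τ H H x = 1) (hH 1)
  have n3 := inv_card _ (fun x => τ H H x = 3) (hN 3)
  have n5 := inv_card _ (fun x => τ H H x = 5) (hN 5)
  have q3 := hq 3 h3
  have q5 := hq 5 h5
  have hp := hpos H
  rw [q3] at e3
  rw [q5] at e5
  have d3 : #{y : G | y ∈ Subgroup.normalizer (H : Set G)} ∣ 3 * #{y : G | y ∈ H} := by
    rw [← e3, n3]; exact Dvd.intro_left _ rfl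
  have d5 : #{y : G | y ∈ Subgroup.normalizer (H : Set G)} ∣ 5 * #{y : G | y ∈ H} := by
    rw [← e5, n5]; exact Dvd.intro_left _ rfl
  have d1 : #{y : G | y ∈ Subgroup.normalizer (H : Set G)} ∣ #{y : G | y ∈ H} := by
    have := Nat.dvd_sub (d3.mul_left 2) d5
    have h2 : 2 * (3 * #{y : G | y ∈ H}) - 5 * #{y : G | y ∈ H} = #{y : G | y ∈ H} := by omega
    rwa [h2] at this
  have hle : #{x : G | τ H H x = 1} ≤ #{y : G | y ∈ Subgroup.normalizer (H : Set G)} := by
    apply card_le_card
    intro n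
    simp only [mem_filter, mem_univ, true_and]
    intro hn
    rw [Subgroup.mem_normalizer_iff]
    intro a
    refine ⟨τ_norm H hn a, fun ha => ?_⟩
    have := τ_norm H ((τ_of_c H H (c_inv H H n)).trans hn) _ ha
    simpa [mul_assoc] using this
  have hle2 := hle.trans (Nat.le_of_dvd hp d1)
  have hk1 : #{q : G ⧸ H | τ H H q.out = 1} = 1 := by
    have h0 : 0 < #{x : G | τ H H x = 1} := card_pos.2 ⟨1, by simp [τ_one]⟩
    rw [e1] at hle2 h0
    have h1 : #{q : G ⧸ H | τ H H q.out = 1} ≤ 1 := by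
      by_contra hc
      nlinarith
    have h2 : #{q : G ⧸ H | τ H H q.out = 1} ≠ 0 := by
      intro h; rw [h] at h0; simp at h0
    omega
  have h9 : #(univ : Finset (G ⧸ H)) = 9 := by
    rw [card_eq_sum_card_fiberwise (f := fun q : G ⧸ H => τ H H q.out) (t := {1, 3, 5})
      (fun q _ => by simpa [τ] using h135 (DoubleCoset.mk H H q.out))]
    rw [sum_insert (by decide), sum_insert (by decide), sum_singleton, hk1, q3, q5]
    rfl
  let Γ : SimpleGraph (G ⧸ H) :=
    { Adj := fun q q' => τ H H (q.out⁻¹ * q'.out) = 3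
      symm := ⟨fun q q' h => by
        rw [← h, ← τ_of_c H H (c_inv H H _)]; simp⟩
      loopless := ⟨fun q h => by simp [τ_one] at h⟩ }
  have hdeg : ∀ q, Γ.degree q = 3 := by
    intro q
    have e := inv_card H (fun x => τ H H (q.out⁻¹ * x) = 3) (by
      intro x k hk
      rw [← mul_assoc]; exact hH 3 _ k hk)
    have e' : #{x : G | τ H H (q.out⁻¹ * x) = 3} = #{x : G | τ H H x = 3} := by
      apply card_bij (fun x _ => q.out⁻¹ * x)
      · intro x hx; simpa using hx
      · intro a _ b _ h; simpa using h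
      · intro z hz; exact ⟨q.out * z, by simpa using hz, by group⟩
    rw [e', e3] at e
    have e2 := Nat.eq_of_mul_eq_mul_right hp e
    rw [← SimpleGraph.card_neighborFinset_eq_degree]
    refine Eq.trans ?_ e2.symm
    congr 1; ext q'
    simp [Γ]
  have := Γ.sum_degrees_eq_twice_card_edges
  simp only [hdeg, sum_const, smul_eq_mul] at this
  rw [h9] at this
  omega

lemma card_le_conj (K' : Subgroup G) (x : G) (hx : ∀ a, a ∈ K' ↔ x * a * x⁻¹ ∈ K) :
    Nat.card {S : Set G // IsLT H S ∧ IsRT K S} ≤ Nat.card {S : Set G // IsLT H S ∧ IsRT K' S} := by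
  refine Nat.card_le_card_of_injective (fun S => ⟨{s | x * s ∈ S.1}, ?_, ?_⟩) ?_
  · intro y
    obtain ⟨s, ⟨h1, h2⟩, hu⟩ := S.2.1 (x * y)
    refine ⟨x⁻¹ * s, ⟨by simpa using h1, by simpa [mul_assoc] using h2⟩, ?_⟩
    rintro z ⟨h3, h4⟩
    have := hu (x * z) ⟨h3, by simpa [mul_assoc] using h4⟩
    rw [← this]; group
  · intro y
    obtain ⟨s, ⟨h1, h2⟩, hu⟩ := S.2.2 (x * y)
    refine ⟨x⁻¹ * s, ⟨by simpa using h1, (hx _).2 (by simpa [mul_assoc] using h2)⟩, ?_⟩
    rintro z ⟨h3, h4⟩
    have := hu (x * z) ⟨h3, by simpa [mul_assoc] using (hx _).1 h4⟩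
    rw [← this]; group
  · intro S S' h
    have h' : {s | x * s ∈ S.1} = {s | x * s ∈ S'.1} := congrArg Subtype.val h
    apply Subtype.ext; ext s
    have := Set.ext_iff.1 h' (x⁻¹ * s)
    simpa using this

lemma P_conj (hHK : #{y : G | y ∈ H} = #{y : G | y ∈ K}) {x : G} (h : τ H K x = 1) :
    P H K = P H H := by
  have h1 := tt_c H K x
  have h2 : tt H K (DoubleCoset.mk K H x) = 1 := h
  rw [h2, one_mul] at h1
  have h3 : c K H x⁻¹ = #{y : G | y ∈ K} := by rw [c_inv, h1]
  rw [← hHK] at h1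
  unfold c at h1 h3
  have e1 := eq_of_subset_of_card_le (s := {a : G | a ∈ H ∧ x * a * x⁻¹ ∈ K})
    (t := {y : G | y ∈ H}) (by intro y; simp only [mem_filter, mem_univ, true_and]; exact And.left)
    h1.ge
  have e2 := eq_of_subset_of_card_le (s := {a : G | a ∈ K ∧ x⁻¹ * a * x⁻¹⁻¹ ∈ H})
    (t := {y : G | y ∈ K}) (by intro y; simp only [mem_filter, mem_univ, true_and]; exact And.left)
    h3.ge
  have hx : ∀ a, a ∈ H ↔ x * a * x⁻¹ ∈ K := by
    intro a
    constructor
    · intro ha
      have := (Finset.ext_iff.1 e1 a).2 (by simpa using ha)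
      simp only [mem_filter, mem_univ, true_and] at this
      exact this.2
    · intro ha
      have := (Finset.ext_iff.1 e2 _).2 (by simpa using ha)
      simp only [mem_filter, mem_univ, true_and] at this
      simpa [mul_assoc] using this.2
  unfold P
  rw [le_antisymm (card_le_conj H K H x hx) (card_le_conj H H K x⁻¹ (fun a => by
    rw [hx]; simp [mul_assoc]))]

lemma inv_dvd (p : G → Prop) [DecidablePred p] (hp : ∀ x k, k ∈ K → (p (k * x) ↔ p x)) :
    #{y : G | y ∈ K} ∣ #{x | p x} := by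
  have e := inv_card K (fun x => p x⁻¹) (fun x k hk => by
    simp only [mul_inv_rev]; exact hp _ _ (K.inv_mem hk))
  have e' : #{x | p x} = #{x | p x⁻¹} := by
    apply card_bij (fun x _ => x⁻¹)
    · intro x hx; simpa using hx
    · intro a _ b _ h; simpa using h
    · intro z hz; exact ⟨z⁻¹, by simpa using hz, by simp⟩
  rw [e', e]; exact Dvd.intro_left _ rfl

def stab (x : G) : Subgroup G where
  carrier := {k | k ∈ K ∧ x⁻¹ * k * x ∈ H}
  one_mem' := by simp [K.one_mem]
  mul_mem' := fun {a b} ha hb => ⟨K.mul_mem ha.1 hb.1, by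
    simpa [mul_assoc] using H.mul_mem ha.2 hb.2⟩
  inv_mem' := fun {a} ha => ⟨K.inv_mem ha.1, by simpa [mul_assoc] using H.inv_mem ha.2⟩

omit [Fintype G] in
lemma mem_stab {x k : G} : k ∈ stab H K x ↔ k ∈ K ∧ x⁻¹ * k * x ∈ H := Iff.rfl

lemma stab_card (x : G) : τ H K x * #{k : G | k ∈ stab H K x} = #{y : G | y ∈ K} := by
  rw [← tt_c H K x, ← c_inv K H x]
  unfold c τ
  congr 2; ext k; simp [mem_stab]

lemma τ_l {k : G} (hk : k ∈ K) (x : G) : τ H K (k * x) = τ H K x := by
  unfold τ; congr 1; symm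
  exact (DoubleCoset.eq _ _ _ _).2 ⟨k, hk, 1, H.one_mem, by simp⟩

lemma τ_r {k : G} (hk : k ∈ H) (x : G) : τ H K (x * k) = τ H K x := by
  unfold τ; congr 1; symm
  exact (DoubleCoset.eq _ _ _ _).2 ⟨1, K.one_mem, k, hk, by simp⟩

lemma trans35 (q5 : #{q : G ⧸ H | τ H K q.out = 5} = 5) {a b b' : G} (ha : τ H K a = 3)
    (hb : τ H K b = 5) (hb' : τ H K b' = 5) :
    ∃ u ∈ stab H K a, ((u * b : G) : G ⧸ H) = b' := by
  by_contra hc
  push Not at hc
  have hq : ∀ z : G, τ H K (z : G ⧸ H).out = τ H K z := by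
    intro z
    obtain ⟨h, hh⟩ := QuotientGroup.mk_out_eq_mul H z
    rw [hh, τ_r H K h.2]
  have u3 := stab_card H K a
  have v5 := stab_card H K b
  rw [ha] at u3; rw [hb] at v5
  obtain ⟨r, hr⟩ := inv_dvd (stab H K a ⊓ stab H K b) (fun x => x ∈ stab H K a)
    (fun x k hk => (stab H K a).mul_mem_cancel_left hk.1)
  obtain ⟨r', hr'⟩ := inv_dvd (stab H K a ⊓ stab H K b) (fun x => x ∈ stab H K b)
    (fun x k hk => (stab H K b).mul_mem_cancel_left hk.2)
  have sp := hpos (stab H K a ⊓ stab H K b)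
  have kp := hpos K
  have hle : #{k : G | k ∈ stab H K a} ≤
      #{y : G | y ∈ stab H K a ⊓ stab H K b} *
        #(({q : G ⧸ H | τ H K q.out = 5} : Finset _).erase (b' : G ⧸ H)) := by
    apply card_le_mul_card_image_of_maps_to (f := fun u : G => ((u * b : G) : G ⧸ H))
    · intro u hu
      simp only [mem_filter, mem_univ, true_and, mem_erase] at hu ⊢
      exact ⟨hc u hu, by rw [hq, τ_l H K hu.1, hb]⟩
    · intro q _
      by_cases hne : ∃ u0 ∈ stab H K a, ((u0 * b : G) : G ⧸ H) = q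
      · obtain ⟨u0, hu0, rfl⟩ := hne
        apply card_le_card_of_injOn (fun u => u0⁻¹ * u)
        · intro u hu
          simp only [coe_filter, mem_filter, mem_univ, true_and, Set.mem_ofPred_eq] at hu ⊢
          have h1 := (stab H K a).mul_mem ((stab H K a).inv_mem hu0) hu.1
          refine ⟨h1, h1.1, ?_⟩
          simpa [mul_assoc] using QuotientGroup.eq.1 hu.2.symm
        · intro u _ v _ h; simpa using h
      · rw [card_eq_zero.2]
        · exact Nat.zero_le _
        · rw [filter_eq_empty_iff]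
          intro u hu h
          exact hne ⟨u, by simpa using hu, h⟩
  rw [card_erase_of_mem (by simp [hq, hb']), q5, hr] at hle
  rw [hr] at u3; rw [hr'] at v5
  have h4 : r ≤ 4 := Nat.le_of_mul_le_mul_left hle sp
  have h5 : 3 * r = 5 * r' := by
    apply Nat.eq_of_mul_eq_mul_left sp
    nlinarith
  have h6 : r = 0 := by omega
  rw [h6] at u3; omega

def MM : Subgroup G where
  carrier := {m | ∀ z, τ H K (m * z) = τ H K z}
  one_mem' := by simp
  mul_mem' := fun {a b} ha hb z => by rw [mul_assoc, ha, hb]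
  inv_mem' := fun {a} ha z => by rw [← ha (a⁻¹ * z)]; simp

lemma main2 (hHK : #{y : G | y ∈ H} = #{y : G | y ∈ K}) : P H K ≠ 16 / 1875 := by
  intro hP
  by_cases h1 : ∃ x, τ H K x = 1
  · obtain ⟨x, hx⟩ := h1
    rw [P_conj H K hHK hx] at hP
    exact main_grp H hP
  push Not at h1
  rw [P_eq H K hHK] at hP
  obtain ⟨h135, h3, h5⟩ := nt (tt H K) (tt_pos H K) hP
  have h35 : ∀ x, τ H K x = 3 ∨ τ H K x = 5 := fun x =>
    (h135 (DoubleCoset.mk K H x)).resolve_left (h1 x)
  have hq : ∀ k, #{d | tt H K d = k} = 1 → #{q : G ⧸ H | τ H K q.out = k} = k := by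
    intro k hk
    obtain ⟨d, hd⟩ := card_eq_one.1 hk
    have hd' : ∀ d', tt H K d' = k ↔ d' = d := by
      intro d'
      rw [← mem_singleton (a := d) (b := d'), ← hd]; simp
    have : tt H K d = k := (hd' d).2 rfl
    refine Eq.trans ?_ this
    unfold tt
    congr 1; ext q
    simp only [mem_filter, mem_univ, true_and]
    exact hd' (aa H K q)
  have q3 := hq 3 h3
  have q5 := hq 5 h5
  have e3 := inv_card H (fun x => τ H K x = 3) (fun x k hk => by rw [τ_r H K hk])
  have e5 := inv_card H (fun x => τ H K x = 5) (fun x k hk => by rw [τ_r H K hk])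
  rw [q3] at e3
  rw [q5] at e5
  have hp := hpos H
  have same3 : ∀ a a', τ H K a = 3 → τ H K a' = 3 → ∃ k ∈ K, ∃ h ∈ H, a' = k * a * h := by
    intro a a' ha ha'
    obtain ⟨d, hd⟩ := card_eq_one.1 h3
    have hd' : ∀ d', tt H K d' = 3 → d' = d := by
      intro d' h
      rw [← mem_singleton (a := d) (b := d'), ← hd]; simpa using h
    exact (DoubleCoset.eq _ _ _ _).1 ((hd' _ ha).trans (hd' _ ha').symm)
  let μ : G → ℕ := fun y => #{z : G | τ H K z = 3 ∧ τ H K (z * y) = 5}
  have μH : ∀ y h h', h ∈ H → h' ∈ H → μ (h * y * h') = μ y := by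
    intro y h h' hh hh'
    apply card_bij (fun z _ => z * h)
    · intro z hz
      simp only [mem_filter, mem_univ, true_and] at hz ⊢
      rw [← mul_assoc, τ_r H K hh', ← mul_assoc] at hz
      exact ⟨by rw [τ_r H K hh, hz.1], hz.2⟩
    · intro a _ b _ h; simpa using h
    · intro z hz
      simp only [mem_filter, mem_univ, true_and] at hz
      refine ⟨z * h⁻¹, ?_, by group⟩
      simp only [mem_filter, mem_univ, true_and]
      refine ⟨by rw [τ_r H K (H.inv_mem hh), hz.1], ?_⟩
      rw [← mul_assoc, τ_r H K hh']; simpa [mul_assoc] using hz.2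
  have μc : ∀ y y', μ y ≠ 0 → μ y' ≠ 0 → μ y' = μ y := by
    intro y y' hy hy'
    obtain ⟨a, ha⟩ := card_ne_zero.1 hy
    obtain ⟨a', ha'⟩ := card_ne_zero.1 hy'
    simp only [mem_filter, mem_univ, true_and] at ha ha'
    obtain ⟨k, hk, h, hh, rfl⟩ := same3 a a' ha.1 ha'.1
    have hb' : τ H K (a * h * y') = 5 := by
      rw [← τ_l H K hk]; simpa [mul_assoc] using ha'.2
    obtain ⟨u, hu, hu2⟩ := trans35 H K q5 ha.1 ha.2 hb'
    have h7 := QuotientGroup.eq.1 hu2
    rw [← μH y (h⁻¹ * (a⁻¹ * u * a)) _ (H.mul_mem (H.inv_mem hh) hu.2) h7]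
    congr 1; group
  have μsum : ∑ y, μ y = 15 * (#{y : G | y ∈ H} * #{y : G | y ∈ H}) := by
    have : ∀ y, μ y = ∑ z ∈ ({x | τ H K x = 3} : Finset G), if τ H K (z * y) = 5 then 1 else 0 := by
      intro y; rw [← card_filter, filter_filter]
    simp_rw [this]
    rw [sum_comm]
    have h2 : ∀ z : G, (∑ y, if τ H K (z * y) = 5 then 1 else 0) = 5 * #{y : G | y ∈ H} := by
      intro z
      rw [← card_filter, ← e5]
      apply card_bij (fun x _ => z * x)
      · intro x hx; simpa using hx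
      · intro a _ b _ h; simpa using h
      · intro w hw; exact ⟨z⁻¹ * w, by simpa using hw, by group⟩
    simp_rw [h2]
    rw [sum_const, e3, smul_eq_mul]; ring
  have hG : #(univ : Finset G) = 8 * #{y : G | y ∈ H} := by
    rw [card_eq_sum_card_fiberwise (f := fun x : G => τ H K x) (t := {3, 5})
      (fun q _ => by simpa using h35 q)]
    rw [sum_insert (by decide), sum_singleton, e3, e5]; ring
  have hall : ∀ y, μ y ≠ 0 → μ y = 3 * #{y : G | y ∈ H} := by
    intro y hy
    have s1 : ∑ y', μ y' = #{y' | μ y' ≠ 0} * μ y := by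
      rw [← smul_eq_mul, ← sum_const, sum_filter]
      refine sum_congr rfl fun y' _ => ?_
      split_ifs with h
      · exact μc y y' hy h
      · simpa using h
    have s2 := inv_card H (fun y' => μ y' ≠ 0) (fun x k hk => by
      have := μH x 1 k H.one_mem hk
      rw [one_mul] at this
      simp only [this])
    obtain ⟨m, hm⟩ := inv_dvd K (fun z => τ H K z = 3 ∧ τ H K (z * y) = 5) (fun x k hk => by
      simp only [mul_assoc, τ_l H K hk])
    have hm' : μ y = #{y : G | y ∈ H} * m := by rw [hHK]; exact hm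
    have s3 : μ y ≤ 3 * #{y : G | y ∈ H} := by
      rw [← e3]; apply card_le_card
      intro z; simp only [mem_filter, mem_univ, true_and]; exact And.left
    have s4 : #{y' | μ y' ≠ 0} + #{y : G | y ∈ H} ≤ 8 * #{y : G | y ∈ H} := by
      rw [← hG, ← card_union_of_disjoint]
      · exact card_le_univ _
      · rw [disjoint_filter]
        intro z _ hz hz'
        apply hz
        rw [card_eq_zero, filter_eq_empty_iff]
        rintro w _ ⟨w1, w2⟩
        rw [τ_r H K hz', w1] at w2; omega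
    rw [μsum, s2, hm'] at s1
    rw [s2] at s4
    rw [hm'] at s3 ⊢
    generalize #{q : G ⧸ H | μ q.out ≠ 0} = r at *
    generalize #{y : G | y ∈ H} = n at *
    have t1 : m ≤ 3 := by nlinarith
    have t2 : r ≤ 7 := by nlinarith
    have t3 : r * m = 15 := by
      apply Nat.eq_of_mul_eq_mul_left (Nat.mul_pos hp hp)
      nlinarith
    have : m = 3 := by
      interval_cases m <;> omega
    rw [this, mul_comm]
  have step : ∀ a a' z, τ H K a = 3 → τ H K a' = 3 → τ H K z = 5 → τ H K (a' * a⁻¹ * z) = 5 := by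
    intro a a' z ha ha' hz
    have h0 : μ (a⁻¹ * z) ≠ 0 := card_ne_zero.2 ⟨a, by simp [ha, hz]⟩
    have h2 := hall _ h0
    rw [← e3] at h2
    have := eq_of_subset_of_card_le (s := {w : G | τ H K w = 3 ∧ τ H K (w * (a⁻¹ * z)) = 5})
      (t := {w : G | τ H K w = 3})
      (by intro y; simp only [mem_filter, mem_univ, true_and]; exact And.left) h2.ge
    have := (Finset.ext_iff.1 this a').2 (by simpa using ha')
    simp only [mem_filter, mem_univ, true_and] at this
    rw [mul_assoc]; exact this.2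
  obtain ⟨a, ha⟩ : ({x | τ H K x = 3} : Finset G).Nonempty := card_pos.1 (by omega)
  simp only [mem_filter, mem_univ, true_and] at ha
  have d3 := inv_dvd (MM H K) (fun x => τ H K x = 3) (fun x k hk => by rw [hk x])
  have d5 := inv_dvd (MM H K) (fun x => τ H K x = 5) (fun x k hk => by rw [hk x])
  rw [e3] at d3; rw [e5] at d5
  have d1 : #{y : G | y ∈ MM H K} ∣ #{y : G | y ∈ H} := by
    have := Nat.dvd_sub (d3.mul_left 2) d5
    have h2 : 2 * (3 * #{y : G | y ∈ H}) - 5 * #{y : G | y ∈ H} = #{y : G | y ∈ H} := by omega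
    rwa [h2] at this
  have hle : #{x | τ H K x = 3} ≤ #{y : G | y ∈ MM H K} := by
    apply card_le_card_of_injOn (fun a' => a' * a⁻¹)
    · intro a' ha'
      simp only [coe_filter, mem_filter, mem_univ, true_and, Set.mem_ofPred_eq] at ha' ⊢
      intro z
      rcases h35 z with hz | hz
      · rcases h35 (a' * a⁻¹ * z) with hw | hw
        · rw [hw, hz]
        · have := step a' a _ ha' ha hw
          rw [show a * a'⁻¹ * (a' * a⁻¹ * z) = z by group] at this
          omega
      · rw [step a a' z ha ha' hz, hz]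
    · intro u _ v _ h; simpa using h
  have := Nat.le_of_dvd hp d1
  omega

end grp

theorem result (G : Type) [Group G] [Finite G] (H K : Subgroup G)
    (hHK : Nat.card H = Nat.card K) : P H K ≠ (T ![1, 3, 5]).permanent := by
  let _ := Fintype.ofFinite G
  rw [per_T]
  apply main2 H K
  rw [Nat.card_eq_fintype_card, Nat.card_eq_fintype_card, Fintype.card_subtype,
    Fintype.card_subtype] at hHK
  exact hHK

end Pool.Agent.Results.MP_e51b07_al.No
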